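import Mathlib
import Pool.Agent.R246.HermE

/-!
# MP_42c7e8: windows with a local reproducing formula on all discs are Hermite functions
-/

namespace Pool.Agent.Results.MP_42c7e8_an.HermiteWindows

open MeasureTheory Complex
open scoped ComplexConjugate

noncomputable section

/-- the time-frequency shift `π(z) g (t) = e^{2πiξt} g(t - x)`, `z = (x, ξ)` -/
def tfShift (z : ℝ × ℝ) (g : ℝ → ℂ) (t : ℝ) : ℂ :=
  cexp (2 * Real.pi * I * z.2 * t) * g (t - z.1)

/-- the inner product `⟨f, h⟩ = ∫ f(t) conj(h(t)) dt` -/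
def inner2 (f h : ℝ → ℂ) : ℂ := ∫ t, f t * conj (h t)

/-- the short-time Fourier transform `V_g f (z) = ⟨f, π(z) g⟩` -/
def stft (g f : ℝ → ℂ) (z : ℝ × ℝ) : ℂ := inner2 f (tfShift z g)

/-- the open disc `|w - z| < R` (Euclidean norm) in the time-frequency plane -/
def disc (z : ℝ × ℝ) (R : ℝ) : Set (ℝ × ℝ) :=
  {w | (w.1 - z.1) ^ 2 + (w.2 - z.2) ^ 2 < R ^ 2}

/-- `g` admits a local reproducing formula on all discs -/
def LocalReproducing (g : ℝ → ℂ) : Prop :=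
  ∀ R : ℝ, 0 < R → ∃ C : ℂ, C ≠ 0 ∧ ∀ f : ℝ → ℂ, MemLp f 2 volume → ∀ z : ℝ × ℝ,
    C * stft g f z = ∫ w in disc z R, inner2 (tfShift w g) (tfShift z g) * stft g f w

/-- the Hermite function `e^{πt²} (d/dt)^n e^{-2πt²}`; the problem's `h_n` is `c_n > 0` times it -/
def hermiteFun (n : ℕ) (t : ℝ) : ℂ :=
  ((Real.exp (Real.pi * t ^ 2) *
    iteratedDeriv n (fun s : ℝ => Real.exp (-(2 * Real.pi * s ^ 2))) t : ℝ) : ℂ)

/-- Every nonzero `g ∈ L²(ℝ)` admitting a local reproducing formula on all discs is of the form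
`c π(a) h_n`. -/
theorem result (g : ℝ → ℂ) (hg : MemLp g 2 volume) (hg0 : ¬ g =ᵐ[volume] 0)
    (h : LocalReproducing g) :
    ∃ (n : ℕ) (c : ℂ) (a : ℝ × ℝ), c ≠ 0 ∧
      g =ᵐ[volume] fun t => c * tfShift a (hermiteFun n) t := by
  refine R246.HermE.classification hg hg0 ?_
  intro R hR
  obtain ⟨C, -, hC⟩ := h R hR
  exact ⟨C, fun f hf => hC f hf 0⟩

end

end Pool.Agent.Results.MP_42c7e8_an.HermiteWindows
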